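import Mathlib
import Pool.Agent.H476R2.Pal.Defs
import Pool.Agent.H187R2.PalT10

/-! All palindromes with `2 L + 1` digits (task T11 of helper476).  Extends helper187's `PalT10`. -/

set_option autoImplicit false

namespace Pool.Agent.H861R2.Pal

open Finset Pool.Agent.H476R2.Pal Pool.Agent.H187R2.PalT10

/-- palindromes with exactly `2 L + 1` decimal digits -/
def palin (L : ℕ) : Finset ℕ :=
  (range (10 ^ (2 * L + 1))).filter (fun n => 10 ^ (2 * L) ≤ n ∧
    (Nat.digits 10 n).reverse = Nat.digits 10 n)

/-- palindrome with leading digit `l` -/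
def pvl (l L : ℕ) (m : Fin L → Fin 10) : ℕ :=
  l * (10 ^ (2 * L) + 1) + ∑ c : Fin L, (m c : ℕ) * fr L c

/-- the digits as a function of the distance to the middle -/
def dgl (l L : ℕ) (m : Fin L → Fin 10) (c : ℕ) : ℕ := if h : c < L then (m ⟨c, h⟩ : ℕ) else l

theorem dgl_lt {l : ℕ} (hl : l ≤ 9) (L : ℕ) (m : Fin L → Fin 10) (c : ℕ) : dgl l L m c < 10 := by
  unfold dgl
  split_ifs with h
  · exact (m ⟨c, h⟩).2
  · omega

theorem dgl_L (l L : ℕ) (m : Fin L → Fin 10) : dgl l L m L = l := by simp [dgl]

theorem pvl_eq (l L : ℕ) (hL : 1 ≤ L) (m : Fin L → Fin 10) :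
    pvl l L m = ∑ i ∈ range (2 * L + 1), dgl l L m (Nat.dist i L) * 10 ^ i := by
  have h1 : ∑ c : Fin L, (m c : ℕ) * fr L c = ∑ c ∈ range L, dgl l L m c * fr L c := by
    rw [← Fin.sum_univ_eq_sum_range (fun c => dgl l L m c * fr L c) L]
    apply sum_congr rfl
    intro c _
    simp [dgl, c.2]
  have h2 : l * (10 ^ (2 * L) + 1) = dgl l L m L * fr L L := by
    rw [dgl_L, fr, if_neg (by omega), Nat.sub_self, pow_zero]
    congr 3; ring
  have h3 : pvl l L m = ∑ c ∈ range (L + 1), dgl l L m c * fr L c := by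
    rw [sum_range_succ, ← h2, pvl, h1]; ring
  have h4 : pvl l L m = dgl l L m 0 * 10 ^ L + (∑ c ∈ range L, dgl l L m (c + 1) * 10 ^ (L + 1 + c) +
      ∑ c ∈ range L, dgl l L m (c + 1) * 10 ^ (L - (c + 1))) := by
    rw [h3, sum_range_succ', ← sum_add_distrib, add_comm]
    congr 1
    apply sum_congr rfl
    intro c _
    rw [fr, if_neg (by omega), mul_add]
    congr 3; ring
  have h5 : ∑ c ∈ range L, dgl l L m (c + 1) * 10 ^ (L - (c + 1)) =
      ∑ i ∈ range L, dgl l L m (Nat.dist i L) * 10 ^ i := by
    rw [← sum_range_reflect (fun i => dgl l L m (Nat.dist i L) * 10 ^ i)]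
    apply sum_congr rfl
    intro c hc
    rw [mem_range] at hc
    have e1 : L - 1 - c = L - (c + 1) := by omega
    have e2 : Nat.dist (L - 1 - c) L = c + 1 := by
      rw [Nat.dist_eq_sub_of_le (by omega)]; omega
    rw [e2, e1]
  rw [show 2 * L + 1 = L + (L + 1) by ring, sum_range_add, h4, h5, add_comm (∑ c ∈ range L, _) _,
    add_left_comm]
  congr 1
  rw [sum_range_succ', add_comm]
  congr 1
  · apply sum_congr rfl
    intro c _
    have e2 : Nat.dist (L + (c + 1)) L = c + 1 := by
      rw [Nat.dist_eq_sub_of_le_right (by omega)]; omega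
    rw [e2]
    congr 2; ring
  · simp

/-- the list of digits -/
def lst (l L : ℕ) (m : Fin L → Fin 10) : List ℕ :=
  (List.range (2 * L + 1)).map (fun i => dgl l L m (Nat.dist i L))

theorem lst_length (l L : ℕ) (m : Fin L → Fin 10) : (lst l L m).length = 2 * L + 1 := by
  simp [lst]

theorem lst_getElem (l L : ℕ) (m : Fin L → Fin 10) (i : ℕ) (h : i < (lst l L m).length) :
    (lst l L m)[i] = dgl l L m (Nat.dist i L) := by
  simp [lst]

theorem pvl_ofDigits (l L : ℕ) (hL : 1 ≤ L) (m : Fin L → Fin 10) :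
    pvl l L m = Nat.ofDigits 10 (lst l L m) := by
  rw [pvl_eq l L hL, lst, ofDigits_map_range]

theorem lst_lt {l : ℕ} (hl : l ≤ 9) (L : ℕ) (m : Fin L → Fin 10) : ∀ x ∈ lst l L m, x < 10 := by
  intro x hx
  rw [lst, List.mem_map] at hx
  obtain ⟨i, _, rfl⟩ := hx
  exact dgl_lt hl _ _ _

theorem lst_reverse (l L : ℕ) (m : Fin L → Fin 10) : (lst l L m).reverse = lst l L m := by
  unfold lst
  apply List.ext_getElem
  · simp
  · intro i h1 h2
    have h3 : i < 2 * L + 1 := by simpa using h2
    rw [List.getElem_reverse]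
    simp only [List.getElem_map, List.getElem_range, List.length_map, List.length_range]
    congr 1
    unfold Nat.dist
    omega

theorem digits_pvl {l : ℕ} (h1 : 1 ≤ l) (h9 : l ≤ 9) (L : ℕ) (hL : 1 ≤ L) (m : Fin L → Fin 10) :
    Nat.digits 10 (pvl l L m) = lst l L m := by
  rw [pvl_ofDigits l L hL, Nat.digits_ofDigits 10 (by norm_num) _ (lst_lt h9 L m)]
  intro hne
  rw [List.getLast_eq_getElem, lst_getElem, lst_length]
  have : Nat.dist (2 * L + 1 - 1) L = L := by
    rw [Nat.dist_eq_sub_of_le_right (by omega)]; omega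
  rw [this, dgl_L]
  omega

theorem pvl_inj (L : ℕ) (hL : 1 ≤ L) :
    Set.InjOn (fun x : ℕ × (Fin L → Fin 10) => pvl x.1 L x.2) {x | x.1 ≤ 9} := by
  rintro ⟨l, m⟩ hl ⟨l', m'⟩ hl' h
  change l ≤ 9 at hl
  change l' ≤ 9 at hl'
  have h0 : Nat.ofDigits 10 (lst l L m) = Nat.ofDigits 10 (lst l' L m') := by
    rw [← pvl_ofDigits l L hL, ← pvl_ofDigits l' L hL]; exact h
  have h1 : lst l L m = lst l' L m' :=
    Nat.ofDigits_inj_of_len_eq (by norm_num) (by simp [lst]) (lst_lt hl L m) (lst_lt hl' L m') h0
  have h2 := List.map_inj_left.1 h1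
  refine Prod.ext ?_ (funext fun c => ?_)
  · have h3 := h2 (2 * L) (by rw [List.mem_range]; omega)
    have h4 : Nat.dist (2 * L) L = L := by
      rw [Nat.dist_eq_sub_of_le_right (by omega)]; omega
    rw [h4, dgl_L, dgl_L] at h3
    exact h3
  · have hc := c.2
    have h3 := h2 (L + c) (by rw [List.mem_range]; omega)
    have h4 : Nat.dist (L + c) L = c := by
      rw [Nat.dist_eq_sub_of_le_right (by omega)]; omega
    rw [h4] at h3
    simp only [dgl, hc, dif_pos] at h3
    exact Fin.ext h3

/-- T11 (file T11.lean) all palindromes with `2L+1` digits -/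
theorem palin_eq (L : ℕ) (hL : 1 ≤ L) :
    palin L = ((Icc 1 9) ×ˢ (univ : Finset (Fin L → Fin 10))).image (fun x => pvl x.1 L x.2) := by
  ext n
  rw [palin, mem_filter, mem_range, mem_image]
  constructor
  · rintro ⟨hn1, hn2, hrev⟩
    have hn0 : n ≠ 0 := by
      have : 0 < 10 ^ (2 * L) := by positivity
      omega
    have hlen : (Nat.digits 10 n).length = 2 * L + 1 := by
      apply le_antisymm
      · exact (Nat.digits_length_le_iff (by norm_num) n).2 hn1
      · have := (Nat.lt_digits_length_iff (b := 10) (by norm_num) n (k := 2 * L)).2 hn2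
        omega
    set D := Nat.digits 10 n with hD
    have hlt : ∀ i, (h : i < D.length) → D[i] < 10 := fun i h =>
      Nat.digits_lt_base (by norm_num) (List.getElem_mem h)
    have hpal : ∀ i, (h : i < 2 * L + 1) →
        D[2 * L - i]'(by rw [hlen]; omega) = D[i]'(by rw [hlen]; omega) := by
      intro i h
      have h1 : i < D.reverse.length := by rw [List.length_reverse, hlen]; omega
      have h2 : D.reverse[i] = D[i]'(by rw [hlen]; omega) := by
        congr 1
      rw [← h2, List.getElem_reverse]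
      congr 1
      rw [hlen]
      omega
    refine ⟨(D[2 * L]'(by rw [hlen]; omega), fun c => ⟨D[L + c]'(by rw [hlen]; omega), hlt _ _⟩),
      ?_, ?_⟩
    · rw [mem_product, mem_Icc]
      refine ⟨⟨?_, ?_⟩, mem_univ _⟩
      · have h1 := Nat.getLast_digit_ne_zero 10 hn0
        rw [List.getLast_eq_getElem] at h1
        have h2 : D[2 * L]'(by rw [hlen]; omega) ≠ 0 := by
          convert h1 using 2
          rw [← hD, hlen]; omega
        omega
      · have := hlt (2 * L) (by rw [hlen]; omega)
        show D[2 * L]'(by rw [hlen]; omega) ≤ 9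
        omega
    · show pvl _ L _ = n
      rw [pvl_ofDigits _ L hL, ← Nat.ofDigits_digits 10 n, ← hD]
      congr 1
      apply List.ext_getElem
      · rw [lst, List.length_map, List.length_range, hlen]
      · intro i h1 h2
        have h3 : i < 2 * L + 1 := by rw [← hlen]; exact h2
        rw [lst_getElem]
        unfold dgl
        split_ifs with hc
        · show D[L + Nat.dist i L]'_ = D[i]
          rcases le_total L i with h4 | h4
          · congr 1
            rw [Nat.dist_eq_sub_of_le_right h4]; omega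
          · rw [← hpal i h3]
            congr 1
            rw [Nat.dist_eq_sub_of_le h4]; omega
        · rcases le_total L i with h4 | h4
          · rw [Nat.dist_eq_sub_of_le_right h4] at hc
            have hi : i = 2 * L := by omega
            subst hi
            rfl
          · rw [Nat.dist_eq_sub_of_le h4] at hc
            have hi : i = 0 := by omega
            subst hi
            rw [← hpal 0 (by omega)]
            congr 1
  · rintro ⟨⟨l, m⟩, hx, rfl⟩
    rw [mem_product, mem_Icc] at hx
    obtain ⟨⟨h1, h9⟩, _⟩ := hx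
    simp only at h1 h9
    refine ⟨?_, ?_, ?_⟩
    · have h := Nat.lt_base_pow_length_digits (b := 10) (m := pvl l L m) (by norm_num)
      rw [digits_pvl h1 h9 L hL, lst, List.length_map, List.length_range] at h
      exact h
    · show 10 ^ (2 * L) ≤ pvl l L m
      unfold pvl
      have : 1 * (10 ^ (2 * L) + 1) ≤ l * (10 ^ (2 * L) + 1) := Nat.mul_le_mul_right _ h1
      omega
    · show (Nat.digits 10 (pvl l L m)).reverse = Nat.digits 10 (pvl l L m)
      rw [digits_pvl h1 h9 L hL, lst_reverse]

end Pool.Agent.H861R2.Pal
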