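import Mathlib
import Pool.Agent.H861R2.Pal.T11

/-! Bombieri-Vinogradov for all palindromes with `2 L + 1` digits (task T12 of helper476). -/

set_option autoImplicit false

namespace Pool.Agent.H861R2.Pal

open Finset Filter Topology Pool.Agent.H476R2.Pal

theorem modEq_shift {q x y h : ℕ} (hq : 1 ≤ q) : x + y ≡ h [MOD q] ↔ x ≡ h + (q - 1) * y [MOD q] := by
  have h1 : y + (q - 1) * y = q * y := by
    obtain ⟨k, rfl⟩ := Nat.exists_eq_add_of_le hq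
    rw [Nat.add_sub_cancel_left]; ring
  have h2 : x + q * y ≡ x [MOD q] := by
    exact Nat.ModEq.add_left x (Nat.modEq_zero_iff_dvd.2 (Dvd.intro y rfl) : q * y ≡ 0 [MOD q])
  constructor
  · intro hx
    have h3 := Nat.ModEq.add_right ((q - 1) * y) hx
    rw [add_assoc, h1] at h3
    exact h2.symm.trans h3
  · intro hx
    have h3 := Nat.ModEq.add_right y hx
    rw [add_assoc, add_comm ((q - 1) * y) y, h1] at h3
    refine h3.trans ?_
    exact Nat.ModEq.add_left h (Nat.modEq_zero_iff_dvd.2 (Dvd.intro y rfl) : q * y ≡ 0 [MOD q])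

theorem pvl_pv {l : ℕ} (hl : 1 ≤ l) (L : ℕ) (m : Fin L → Fin 10) :
    pvl l L m = pv L m + (l - 1) * (10 ^ (2 * L) + 1) := by
  obtain ⟨k, rfl⟩ := Nat.exists_eq_add_of_le hl
  rw [pvl, pv, Nat.add_sub_cancel_left]
  ring

theorem card_eq (L : ℕ) (hL : 1 ≤ L) (q h : ℕ) (hq : 1 ≤ q) :
    (((palin L).filter (fun n => n ≡ h [MOD q])).card : ℝ)
      = ∑ l ∈ Icc 1 9, cnt L q (h + (q - 1) * ((l - 1) * (10 ^ (2 * L) + 1))) := by
  rw [palin_eq L hL, filter_image, card_image_of_injOn]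
  · rw [card_filter, sum_product, Nat.cast_sum]
    apply sum_congr rfl
    intro l hl
    rw [mem_Icc] at hl
    rw [← card_filter, cnt]
    congr 2
    apply filter_congr
    intro m _
    rw [pvl_pv hl.1, modEq_shift hq]
  · intro x hx y hy hxy
    rw [mem_coe, mem_filter, mem_product, mem_Icc] at hx hy
    exact pvl_inj L hL (show x.1 ≤ 9 from hx.1.1.2) (show y.1 ≤ 9 from hy.1.1.2) hxy

theorem BV_all_of (hBV : ∀ (ε : ℝ), 0 < ε → ∀ (A : ℕ), ∀ᶠ L : ℕ in atTop, ∀ h : ℕ → ℕ,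
      ∑ q ∈ (Icc 1 ⌊(10 : ℝ) ^ ((1 / 2 - ε) * L)⌋₊).filter (fun q => q.Coprime 10),
        (q.divisors.card : ℝ) ^ 2 * |cnt L q (h q) - 10 ^ L / q| ≤ 10 ^ L / (L : ℝ) ^ A)
    (ε : ℝ) (hε : 0 < ε) (A : ℕ) : ∀ᶠ L : ℕ in atTop, ∀ h : ℕ → ℕ,
    ∑ q ∈ (Icc 1 ⌊(10 : ℝ) ^ ((1 / 2 - ε) * L)⌋₊).filter (fun q => q.Coprime 10),
      |(((palin L).filter (fun n => n ≡ h q [MOD q])).card : ℝ) - 9 * 10 ^ L / q| ≤
        10 ^ L / (L : ℝ) ^ A := by
  filter_upwards [hBV ε hε (A + 1), eventually_ge_atTop 9] with L hL hL9 h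
  set D := ⌊(10 : ℝ) ^ ((1 / 2 - ε) * L)⌋₊ with hD
  have hL9' : (9 : ℝ) ≤ L := by exact_mod_cast hL9
  have hL0 : (0 : ℝ) < L := by linarith
  have h1 : ∀ q ∈ (Icc 1 D).filter (fun q => q.Coprime 10),
      |(((palin L).filter (fun n => n ≡ h q [MOD q])).card : ℝ) - 9 * 10 ^ L / q|
        ≤ ∑ l ∈ Icc 1 9, (q.divisors.card : ℝ) ^ 2 *
          |cnt L q (h q + (q - 1) * ((l - 1) * (10 ^ (2 * L) + 1))) - 10 ^ L / q| := by
    intro q hq
    rw [mem_filter, mem_Icc] at hq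
    rw [card_eq L (by omega) q (h q) hq.1.1]
    have h2 : (9 : ℝ) * 10 ^ L / q = ∑ _l ∈ Icc 1 9, (10 : ℝ) ^ L / q := by
      rw [sum_const, Nat.card_Icc, nsmul_eq_mul]
      norm_num
      ring
    rw [h2, ← sum_sub_distrib]
    refine (abs_sum_le_sum_abs _ _).trans ?_
    apply sum_le_sum
    intro l _
    have h3 : (1 : ℝ) ≤ (q.divisors.card : ℝ) ^ 2 := by
      have h4 : 1 ≤ q.divisors.card := Finset.card_pos.2 ⟨1, by
        rw [Nat.mem_divisors]; exact ⟨one_dvd _, by omega⟩⟩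
      have h5 : (1 : ℝ) ≤ q.divisors.card := by exact_mod_cast h4
      nlinarith
    exact le_mul_of_one_le_left (abs_nonneg _) h3
  refine (sum_le_sum h1).trans ?_
  rw [sum_comm]
  calc ∑ l ∈ Icc 1 9, ∑ q ∈ (Icc 1 D).filter (fun q => q.Coprime 10), (q.divisors.card : ℝ) ^ 2 *
          |cnt L q (h q + (q - 1) * ((l - 1) * (10 ^ (2 * L) + 1))) - 10 ^ L / q|
      ≤ ∑ _l ∈ Icc 1 9, 10 ^ L / (L : ℝ) ^ (A + 1) :=
        sum_le_sum fun l _ => hL (fun q => h q + (q - 1) * ((l - 1) * (10 ^ (2 * L) + 1)))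
    _ = 9 * (10 ^ L / (L : ℝ) ^ (A + 1)) := by
        rw [sum_const, Nat.card_Icc, nsmul_eq_mul]; norm_num
    _ ≤ 10 ^ L / (L : ℝ) ^ A := by
        rw [pow_succ, ← mul_div_assoc, div_le_div_iff₀ (by positivity) (by positivity)]
        have : (9 : ℝ) * (10 ^ L * (L : ℝ) ^ A) ≤ L * (10 ^ L * (L : ℝ) ^ A) :=
          mul_le_mul_of_nonneg_right hL9' (by positivity)
        linarith

end Pool.Agent.H861R2.Pal
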